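import Mathlib

namespace Pool.Agent.Lib.MP_baa34e_lc

open Cardinal Filter

/-- `A` meets every nonempty open subset of the Cantor space in exactly `κ` points. -/
def KDense (κ : Cardinal.{0}) (A : Set (ℕ → Bool)) : Prop :=
  ∀ U : Set (ℕ → Bool), IsOpen U → U.Nonempty → Cardinal.mk (A ∩ U : Set (ℕ → Bool)) = κ

/-- The weak Baumgartner axiom for the Cantor space. -/
def WeakBA (κ : Cardinal.{0}) : Prop :=
  ∀ A B : Set (ℕ → Bool), KDense κ A → KDense κ B → Nonempty (A ≃ₜ B)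

/-- The bounding number. -/
noncomputable def boundingNumber : Cardinal.{0} :=
  sInf {c | ∃ F : Set (ℕ → ℕ), Cardinal.mk F = c ∧
    ¬ ∃ f : ℕ → ℕ, ∀ g ∈ F, ∀ᶠ k in atTop, g k ≤ f k}

/-- The cofinality of the countable subsets of a set of size `κ` under inclusion. -/
noncomputable def cofCountable (κ : Cardinal.{0}) : Cardinal.{0} :=
  sInf {c | ∃ 𝒞 : Set (Set κ.out), Cardinal.mk 𝒞 = c ∧ (∀ C ∈ 𝒞, C.Countable) ∧
    ∀ D : Set κ.out, D.Countable → ∃ C ∈ 𝒞, D ⊆ C}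

end Pool.Agent.Lib.MP_baa34e_lc
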