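import Pool.Agent.Lib.MP_baa34e_lc.Top

namespace Pool.Agent.Lib.MP_baa34e_lc

open Cardinal Filter Set TopologicalSpace

/-- open layer of the hull attached to `t` -/
def W (u : ℕ → Set X) (t : X) (m : ℕ) : Set X :=
  {x | ∃ k, m ≤ (Nat.unpair k).1 ∧ x k = true ∧ t ∈ u (Nat.unpair k).2}

def G (u : ℕ → Set X) (t : X) : Set X := {x | ∀ m, x ∈ W u t m}

def Good (u : ℕ → Set X) : Set X := {x | ∀ m, Dense {t | x ∈ W u t m}}

lemma isOpen_W (u : ℕ → Set X) (t : X) (m : ℕ) : IsOpen (W u t m) := by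
  have : W u t m = ⋃ k, ⋃ (_ : m ≤ (Nat.unpair k).1 ∧ t ∈ u (Nat.unpair k).2),
      (fun x : X => x k) ⁻¹' {true} := by
    ext x; simp [W]; tauto
  rw [this]
  exact isOpen_iUnion fun n => isOpen_iUnion fun _ =>
    (isOpen_discrete _).preimage (continuous_apply _)

lemma exists_G {u : ℕ → Set X} (huo : ∀ i, IsOpen (u i)) {C : Set X} (hC : C.Countable)
    (hCE : C ⊆ Good u) : ∃ t, C ⊆ G u t := by
  have := hC.to_subtype
  have hd : Dense (⋂ p : C × ℕ, {t | p.1.1 ∈ W u t p.2}) := by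
    refine dense_iInter_of_isOpen (fun p => ?_) (fun p => hCE p.1.2 p.2)
    have : {t | p.1.1 ∈ W u t p.2} = ⋃ k, ⋃ (_ : p.2 ≤ (Nat.unpair k).1 ∧ p.1.1 k = true),
        u (Nat.unpair k).2 := by
      ext t; simp [W]; tauto
    rw [this]
    exact isOpen_iUnion fun n => isOpen_iUnion fun _ => huo _
  obtain ⟨t, ht⟩ := hd.nonempty
  refine ⟨t, fun x hx m => ?_⟩
  exact mem_iInter.1 ht (⟨x, hx⟩, m)

lemma exists_avoid {u : ℕ → Set X}
    (hu : ∀ V : Set X, IsOpen V → ∀ p ∈ V, ∃ i, p ∈ u i ∧ u i ⊆ V)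
    {T : Set X} (hT : Mg T) {V : Set X} (hV : IsOpen V) (hne : V.Nonempty) :
    ∃ x ∈ Good u, x ∈ V ∧ ∀ t ∈ T, x ∉ G u t := by
  classical
  obtain ⟨O, hOo, hOd, hO⟩ := hT
  obtain ⟨x0, hx0⟩ := hne
  obtain ⟨N, hN⟩ := exists_cyl hV hx0
  let O' : ℕ → Set X := fun j => ⋂ l : Fin (j + 1), O l
  have hO'o : ∀ j, IsOpen (O' j) := fun j => isOpen_iInter_of_finite fun l => hOo l
  have hO'd : ∀ j, Dense (O' j) := fun j => dense_iInter_of_isOpen (fun l => hOo _) fun l => hOd _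
  let x : X := fun k => if k < N then x0 k else decide (u (Nat.unpair k).2 ⊆ O' (Nat.unpair k).1)
  refine ⟨x, fun m => ?_, hN x fun i hi => by simp [x, hi], fun t ht hG => ?_⟩
  · rw [dense_iff_inter_open]
    intro U hU hUne
    obtain ⟨p, hp⟩ := dense_iff_inter_open.1 (hO'd (m + N)) U hU hUne
    obtain ⟨i, hi1, hi2⟩ := hu _ (hU.inter (hO'o (m + N))) p hp
    refine ⟨p, hp.1, Nat.pair (m + N) i, by simp, ?_, by simpa using hi1⟩
    have h1 : ¬ Nat.pair (m + N) i < N := by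
      have := Nat.left_le_pair (m + N) i
      omega
    simp only [x, h1, if_false, Nat.unpair_pair, decide_eq_true_eq]
    exact hi2.trans inter_subset_right
  · obtain ⟨l, hl⟩ := hO t ht
    obtain ⟨k, hk1, hk2, hk3⟩ := hG (l + N)
    have h1 : ¬ k < N := by
      have := Nat.unpair_left_le k
      omega
    simp only [x, h1, if_false, decide_eq_true_eq] at hk2
    exact hl (mem_iInter.1 (hk2 hk3) ⟨l, by omega⟩)

lemma exists_rec {ι Y : Type} [LinearOrder ι] [WellFoundedLT ι] [Inhabited Y]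
    (P : ι → (ι → Y) → Y → Prop) (hex : ∀ β f, ∃ x, P β f x)
    (hloc : ∀ β f g x, (∀ γ < β, f γ = g γ) → P β f x → P β g x) :
    ∃ y : ι → Y, ∀ β, P β y (y β) := by
  classical
  let F : ∀ β : ι, (∀ γ, γ < β → Y) → Y := fun β prev =>
    Classical.choose (hex β fun γ => if h : γ < β then prev γ h else default)
  let y : ι → Y := (wellFounded_lt (α := ι)).fix F
  refine ⟨y, fun β => ?_⟩
  have h1 : y β = F β fun γ _ => y γ := WellFounded.fix_eq _ _ _
  rw [h1]
  refine hloc β _ y _ (fun γ hγ => ?_) (Classical.choose_spec (hex β _))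
  simp [hγ]

/-- A `κ`-dense set in which every countable subset has a small `Gδ` hull. -/
lemma exists_small_hulls {κ : Cardinal.{0}} (hκ : ℵ₀ < κ)
    (hM : ∀ T : Set X, #T ≤ κ → Mg T)
    {ι : Type} [LinearOrder ι] [WellFoundedLT ι] (hι : #ι = κ)
    (hI : ∀ β : ι, #(Iic β) < κ) (c : ι → Set ι) (hc : ∀ i, (c i).Countable)
    (hcof : ∀ D : Set ι, D.Countable → ∃ i, D ⊆ c i) :
    ∃ Y : Set X, KDense κ Y ∧ ∀ D ⊆ Y, D.Countable → ∃ Wo : ℕ → Set X, (∀ m, IsOpen (Wo m)) ∧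
      (∀ m, D ⊆ Wo m) ∧ #(Y ∩ ⋂ m, Wo m : Set X) < κ := by
  classical
  obtain ⟨u, huo, hune, hu⟩ := exists_base
  -- countable sets are bounded
  have hbdd : ∀ D : Set ι, D.Countable → ∃ β, ∀ d ∈ D, d ≤ β := by
    intro D hD
    by_contra hcon
    push Not at hcon
    have h1 : ∀ d : ι, ∃ x, x ∉ ⋃ i : Iic d, c i := by
      intro d
      by_contra h2
      push Not at h2
      have h3 : (⋃ i : Iic d, c i) = Set.univ := eq_univ_of_forall h2
      have h4 : #(⋃ i : Iic d, c i) ≤ max (#(Iic d)) ℵ₀ :=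
        mk_iUnion_le' (le_max_right _ _) _ (le_max_left _ _) fun i =>
          ((le_aleph0_iff_set_countable.2 (hc i))).trans (le_max_right _ _)
      rw [h3, mk_univ, hι] at h4
      exact absurd h4 (not_le.2 (max_lt (hI d) hκ))
    choose x hx using h1
    obtain ⟨i, hi⟩ := hcof (x '' D) (hD.image x)
    obtain ⟨d, hd, hid⟩ := hcon i
    exact hx d (mem_iUnion.2 ⟨⟨i, hid.le⟩, hi (mem_image_of_mem x hd)⟩)
  -- a colouring with large fibres
  obtain ⟨e⟩ : Nonempty (ι ≃ ι × ℕ) := by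
    rw [← Cardinal.eq]
    simp only [mk_prod, lift_id, mk_nat, hι]
    exact (mul_eq_left hκ.le hκ.le aleph0_ne_zero).symm
  let τ : Set X → X := fun D => Classical.epsilon fun t => D ⊆ G u t
  have hτ : ∀ D : Set X, D.Countable → D ⊆ Good u → D ⊆ G u (τ D) := fun D h1 h2 =>
    Classical.epsilon_spec (exists_G huo h1 h2)
  obtain ⟨y, hy⟩ := exists_rec (ι := ι) (Y := X)
    (fun β f x => x ∈ Good u ∧ x ∈ u (e β).2 ∧ (∀ i, x ∉ G u (τ (f '' (c i ∩ Iio β)))) ∧
      ∀ γ < β, x ∉ G u (τ {f γ})) (by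
      intro β f
      have hT : #(range (fun i => τ (f '' (c i ∩ Iio β))) ∪ range (fun γ => τ {f γ}) : Set X)
          ≤ κ :=
        (mk_union_le _ _).trans (add_le_of_le hκ.le (mk_range_le.trans hι.le)
          (mk_range_le.trans hι.le))
      obtain ⟨x, hx1, hx2, hx3⟩ := exists_avoid hu (hM _ hT) (huo (e β).2) (hune _)
      exact ⟨x, hx1, hx2, fun i => hx3 _ (Or.inl ⟨i, rfl⟩),
        fun γ _ => hx3 _ (Or.inr ⟨γ, rfl⟩)⟩) (by
      rintro β f g x hfg ⟨h1, h2, h3, h4⟩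
      refine ⟨h1, h2, fun i => ?_, fun γ hγ => ?_⟩
      · have : g '' (c i ∩ Iio β) = f '' (c i ∩ Iio β) :=
          image_congr fun γ hγ => (hfg γ hγ.2).symm
        rw [this]; exact h3 i
      · rw [← hfg γ hγ]; exact h4 γ hγ)
  have hlt : ∀ γ β, γ < β → y γ ≠ y β := by
    intro γ β h heq
    apply (hy β).2.2.2 γ h
    rw [← heq]
    exact hτ {y γ} (countable_singleton _) (singleton_subset_iff.2 (hy γ).1) rfl
  have hinj : Function.Injective y := by
    intro a b hab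
    rcases lt_trichotomy a b with h | h | h
    · exact absurd hab (hlt _ _ h)
    · exact h
    · exact absurd hab.symm (hlt _ _ h)
  refine ⟨range y, ?_, ?_⟩
  · rintro U hU ⟨q, hq⟩
    apply le_antisymm
    · exact (mk_le_mk_of_subset inter_subset_left).trans (mk_range_le.trans hι.le)
    · obtain ⟨i, -, hi⟩ := hu U hU q hq
      rw [← hι]
      refine Cardinal.mk_le_of_injective (f := fun a : ι =>
        (⟨y (e.symm (a, i)), mem_range_self _, hi ?_⟩ : (range y ∩ U : Set X))) ?_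
      · simpa using (hy (e.symm (a, i))).2.1
      · intro a b hab
        have := e.symm.injective (hinj (congrArg Subtype.val hab))
        exact (Prod.mk.inj this).1
  · intro D hD hDc
    obtain ⟨i, hi⟩ := hcof (y ⁻¹' D) (hDc.preimage hinj)
    obtain ⟨β0, hβ0⟩ := hbdd (c i) (hc i)
    have hG : y '' c i ⊆ G u (τ (y '' c i)) :=
      hτ _ ((hc i).image y) (by rintro _ ⟨a, -, rfl⟩; exact (hy a).1)
    refine ⟨W u (τ (y '' c i)), isOpen_W u _, fun m d hd => ?_, ?_⟩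
    · obtain ⟨a, rfl⟩ := hD hd
      exact hG (mem_image_of_mem y (hi hd)) m
    · refine lt_of_le_of_lt ?_ (hI β0)
      refine le_trans (mk_le_mk_of_subset (t := y '' Iic β0) ?_) mk_image_le
      rintro _ ⟨⟨a, rfl⟩, ha⟩
      refine mem_image_of_mem y ?_
      by_contra hlt'
      have hlt2 : β0 < a := not_le.1 hlt'
      have : c i ∩ Iio a = c i :=
        inter_eq_left.2 fun d hd => lt_of_le_of_lt (hβ0 d hd) hlt2
      apply (hy a).2.2.1 i
      rw [this]
      exact fun m => mem_iInter.1 ha m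

end Pool.Agent.Lib.MP_baa34e_lc
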