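import Pool.Agent.Lib.MP_baa34e_lc.Hull

namespace Pool.Agent.Lib.MP_baa34e_lc

open Cardinal Filter Set TopologicalSpace

/-- number of ones below `H` -/
def cnt (x : X) (H : ℕ) : ℕ := ((Finset.range H).filter fun i => x i = true).card

def Q : Set X := range fun s : Finset ℕ => fun i => decide (i ∈ s)

lemma cnt_mono (x : X) {H H' : ℕ} (h : H ≤ H') : cnt x H ≤ cnt x H' :=
  Finset.card_le_card (Finset.filter_subset_filter _ (Finset.range_mono h))

lemma continuous_cnt (H : ℕ) : Continuous fun x : X => cnt x H := by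
  have : (fun x : X => cnt x H) =
      fun x => ∑ i ∈ Finset.range H, (fun b : Bool => if b = true then 1 else 0) (x i) := by
    funext x
    simp only [cnt, Finset.card_filter]
  rw [this]
  exact continuous_finsetSum _ fun i _ =>
    (continuous_of_discreteTopology (f := fun b : Bool => if b = true then 1 else 0)).comp
      (continuous_apply i)

lemma exists_cnt {x : X} (hx : x ∉ Q) (n : ℕ) : ∃ H, n < cnt x H := by
  have hinf : {i | x i = true}.Infinite := by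
    intro hfin
    apply hx
    refine ⟨hfin.toFinset, ?_⟩
    funext i
    simp
  obtain ⟨s, hs, hcard⟩ := hinf.exists_subset_card_eq (n + 1)
  refine ⟨s.sup id + 1, ?_⟩
  have : s ⊆ (Finset.range (s.sup id + 1)).filter fun i => x i = true := by
    intro i hi
    simp only [Finset.mem_filter, Finset.mem_range]
    exact ⟨Nat.lt_succ_of_le (Finset.le_sup (f := id) hi), hs hi⟩
  have := Finset.card_le_card this
  unfold cnt
  omega

lemma compact_bound {K : Set X} (hK : IsClosed K) (hQ : ∀ x ∈ K, x ∉ Q) (n : ℕ) :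
    ∃ H, ∀ x ∈ K, n < cnt x H := by
  obtain ⟨H, hH⟩ := hK.isCompact.elim_directed_cover (fun H : ℕ => {x : X | n < cnt x H})
    (fun H => (isOpen_discrete {m : ℕ | n < m}).preimage (continuous_cnt H))
    (fun x hx => mem_iUnion.2 (exists_cnt (hQ x hx) n))
    (Monotone.directed_le fun H H' h x (hx : n < cnt x H) => hx.trans_le (cnt_mono x h))
  exact ⟨H, fun x hx => hH hx⟩

lemma lt_of_cnt {a : ℕ → ℕ} (ha : StrictMono a) {x : X} (hx : ∀ i, x i = true → ∃ j, a j = i)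
    {n H : ℕ} (h : n < cnt x H) : a n < H := by
  by_contra hcon
  have hsub : ((Finset.range H).filter fun i => x i = true) ⊆ (Finset.range n).image a := by
    intro i hi
    simp only [Finset.mem_filter, Finset.mem_range] at hi
    obtain ⟨j, rfl⟩ := hx i hi.2
    refine Finset.mem_image.2 ⟨j, Finset.mem_range.2 ?_, rfl⟩
    exact ha.lt_iff_lt.1 (by omega)
  have h1 := (Finset.card_le_card hsub).trans Finset.card_image_le
  rw [Finset.card_range] at h1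
  unfold cnt at h
  omega

lemma bounded_of_small_hulls {κ : Cardinal.{0}} (hκ : ℵ₀ ≤ κ) (hc : κ ≤ 𝔠) (hBA : WeakBA κ)
    {Y : Set X} (hY : KDense κ Y)
    (hull : ∀ D ⊆ Y, D.Countable → ∃ Wo : ℕ → Set X, (∀ m, IsOpen (Wo m)) ∧
      (∀ m, D ⊆ Wo m) ∧ #(Y ∩ ⋂ m, Wo m : Set X) < κ)
    (F : Set (ℕ → ℕ)) (hF : #F ≤ κ) : ∃ f : ℕ → ℕ, ∀ g ∈ F, ∀ᶠ k in atTop, g k ≤ f k := by
  have h1 : ∀ g : ℕ → ℕ, ∃ a : ℕ → ℕ, StrictMono a ∧ ∀ n, g n ≤ a n := by
    intro g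
    refine ⟨fun n => n + ∑ j ∈ Finset.range (n + 1), g j, strictMono_nat_of_lt_succ fun n => ?_,
      fun n => ?_⟩
    · rw [Finset.sum_range_succ _ (n + 1)]; omega
    · simp only [Finset.sum_range_succ]; omega
  choose a ha hga using h1
  have h2 : ∀ g : ℕ → ℕ, ∃ p : Set X, (∀ x ∈ p, ∀ i, x i = true → ∃ j, a g j = i) ∧ #p = κ := by
    intro g
    obtain ⟨p, hp, hpc⟩ := le_mk_iff_exists_subset.1
      (hc.trans (sparse_card (a g) (ha g).injective (fun _ => true) 0 fun _ => Nat.zero_le _))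
    exact ⟨p, fun x hx i hi => (hp hx).2 i (Nat.zero_le _) hi, hpc⟩
  choose p hp hpc using h2
  have hQc : Q.Countable := countable_range _
  have hN : #(Q ∪ ⋃ g : F, p g : Set X) ≤ κ :=
    (mk_union_le _ _).trans (add_le_of_le hκ ((le_aleph0_iff_set_countable.2 hQc).trans hκ)
      (mk_iUnion_le' hκ _ hF fun g => (hpc g).le))
  obtain ⟨e⟩ := hBA _ _ (hY.union hκ hN) hY
  obtain ⟨Wo, hWo, hDW, hsmall⟩ := hull (Subtype.val '' (e '' (Subtype.val ⁻¹' Q)))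
    (by rintro _ ⟨q, -, rfl⟩; exact q.2)
    (((hQc.preimage Subtype.val_injective).image _).image _)
  have h3 : ∀ m, ∃ W' : Set X, IsOpen W' ∧
      Subtype.val ⁻¹' W' = e ⁻¹' (Subtype.val ⁻¹' Wo m) := fun m =>
    isOpen_induced_iff.1 (((hWo m).preimage continuous_subtype_val).preimage e.continuous)
  choose W' hW'o hW' using h3
  have h4 : ∀ m n, ∃ H, ∀ x ∈ (W' m)ᶜ, n < cnt x H := by
    intro m
    refine compact_bound (hW'o m).isClosed_compl fun x hx hxQ => hx ?_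
    have : (⟨x, Or.inr (Or.inl hxQ)⟩ : (Y ∪ (Q ∪ ⋃ g : F, p g) : Set X)) ∈
        Subtype.val ⁻¹' W' m := by
      rw [hW']
      exact hDW m ⟨_, ⟨_, hxQ, rfl⟩, rfl⟩
    exact this
  choose h hh using h4
  refine ⟨fun n => ∑ m ∈ Finset.range (n + 1), h m n, fun g hg => ?_⟩
  have h5 : ∃ x ∈ p g, ∃ m, x ∉ W' m := by
    by_contra hcon
    push Not at hcon
    have hmem : ∀ x : p g, x.1 ∈ (Y ∪ (Q ∪ ⋃ g : F, p g) : Set X) := fun x =>
      Or.inr (Or.inr (mem_iUnion.2 ⟨⟨g, hg⟩, x.2⟩))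
    refine absurd hsmall (not_lt.2 ?_)
    rw [← hpc g]
    refine Cardinal.mk_le_of_injective (f := fun x : p g =>
      (⟨(e ⟨x.1, hmem x⟩).1, (e ⟨x.1, hmem x⟩).2, mem_iInter.2 fun m => ?_⟩ :
        (Y ∩ ⋂ m, Wo m : Set X))) ?_
    · have : (⟨x.1, hmem x⟩ : (Y ∪ (Q ∪ ⋃ g : F, p g) : Set X)) ∈ Subtype.val ⁻¹' W' m :=
        hcon x.1 x.2 m
      rw [hW'] at this
      exact this
    · intro x z hxz
      have h6 := e.injective (Subtype.ext (congrArg (fun w : (Y ∩ ⋂ m, Wo m : Set X) => w.1) hxz))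
      exact Subtype.ext (congrArg (fun w : (Y ∪ (Q ∪ ⋃ g : F, p g) : Set X) => w.1) h6)
  obtain ⟨x, hx, m, hm⟩ := h5
  filter_upwards [eventually_ge_atTop m] with n hn
  have h7 := lt_of_cnt (ha g) (hp g x hx) (hh m n x hm)
  have h8 : h m n ≤ ∑ m ∈ Finset.range (n + 1), h m n :=
    Finset.single_le_sum (f := fun m => h m n) (fun _ _ => Nat.zero_le _)
      (Finset.mem_range.2 (by omega))
  have := hga g n
  omega

lemma lt_boundingNumber {κ : Cardinal.{0}}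
    (h : ∀ F : Set (ℕ → ℕ), #F ≤ κ → ∃ f : ℕ → ℕ, ∀ g ∈ F, ∀ᶠ k in atTop, g k ≤ f k) :
    κ < boundingNumber := by
  have hne : {c | ∃ F : Set (ℕ → ℕ), Cardinal.mk F = c ∧
      ¬ ∃ f : ℕ → ℕ, ∀ g ∈ F, ∀ᶠ k in atTop, g k ≤ f k}.Nonempty := by
    refine ⟨_, Set.univ, rfl, ?_⟩
    rintro ⟨f, hf⟩
    obtain ⟨k, hk⟩ := (hf (fun k => f k + 1) (mem_univ _)).exists
    omega
  obtain ⟨F, hF, hnb⟩ := csInf_mem hne
  by_contra hcon
  exact hnb (h F (hF.le.trans (not_lt.1 hcon)))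

/-- a cofinal family of countable subsets of size at most `μ` -/
def SmallCof (μ : Cardinal.{0}) {α : Type} (S : Set α) : Prop :=
  ∃ 𝒞 : Set (Set α), #𝒞 ≤ μ ∧ (∀ C ∈ 𝒞, C.Countable) ∧
    ∀ D ⊆ S, D.Countable → ∃ C ∈ 𝒞, D ⊆ C

lemma main_of_smallCof {κ : Cardinal.{0}} (hκ : ℵ₀ < κ) (hc : κ ≤ 𝔠) (hBA : WeakBA κ)
    {α : Type} (hα : #α = κ) (hS : SmallCof κ (Set.univ : Set α)) : κ < boundingNumber := by
  obtain ⟨𝒞, h1, h2, h3⟩ := hS
  have hι : #κ.ord.ToType = κ := mk_ord_toType κ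
  obtain ⟨e⟩ : Nonempty (κ.ord.ToType ≃ α) := Cardinal.eq.1 (hι.trans hα.symm)
  obtain ⟨C0, hC0, -⟩ := h3 ∅ (empty_subset _) countable_empty
  have : Nonempty 𝒞 := ⟨⟨C0, hC0⟩⟩
  obtain ⟨j⟩ : Nonempty (𝒞 ↪ κ.ord.ToType) := by
    rw [← Cardinal.le_def, hι]; exact h1
  obtain ⟨Y, hY, hull⟩ := exists_small_hulls hκ (mg_of_weakBA hκ.le hc hBA) hι
    (fun β => by
      have := mk_Iic_lt β (by simp) (by rw [hι]; exact hκ.le)
      rwa [hι] at this)
    (fun i => e ⁻¹' (Function.invFun j i).1)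
    (fun i => (h2 _ (Function.invFun j i).2).preimage e.injective)
    (fun D hD => by
      obtain ⟨C, hC, hDC⟩ := h3 (e '' D) (subset_univ _) (hD.image _)
      refine ⟨j ⟨C, hC⟩, ?_⟩
      rw [Function.leftInverse_invFun j.injective]
      exact fun d hd => hDC (mem_image_of_mem _ hd))
  exact lt_boundingNumber (bounded_of_small_hulls hκ.le hc hBA hY hull)

lemma smallCof_of_cof {κ : Cardinal.{0}} (h : cofCountable κ ≤ κ) :
    SmallCof κ (Set.univ : Set κ.out) := by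
  have hne : {c | ∃ 𝒞 : Set (Set κ.out), Cardinal.mk 𝒞 = c ∧ (∀ C ∈ 𝒞, C.Countable) ∧
      ∀ D : Set κ.out, D.Countable → ∃ C ∈ 𝒞, D ⊆ C}.Nonempty :=
    ⟨_, {C | C.Countable}, rfl, fun _ h => h, fun D hD => ⟨D, hD, subset_rfl⟩⟩
  obtain ⟨𝒞, h1, h2, h3⟩ := csInf_mem hne
  exact ⟨𝒞, h1.le.trans h, h2, fun D _ hD => h3 D hD⟩

lemma smallCof_succ {μ : Cardinal.{0}} (hμ : ℵ₀ ≤ μ) {α : Type}
    (ih : ∀ S : Set α, #S ≤ μ → SmallCof μ S) (S : Set α) (hS : #S ≤ Order.succ μ) :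
    SmallCof (Order.succ μ) S := by
  have hμ' : ℵ₀ ≤ Order.succ μ := hμ.trans (Order.le_succ μ)
  have hι : #(Order.succ μ).ord.ToType = Order.succ μ := mk_ord_toType _
  obtain ⟨j⟩ : Nonempty (S ↪ (Order.succ μ).ord.ToType) := by
    rw [← Cardinal.le_def, hι]; exact hS
  have hI : ∀ β : (Order.succ μ).ord.ToType, #(Iic β) ≤ μ := fun β => by
    have := mk_Iic_lt β (by simp) (by rw [hι]; exact hμ')
    rw [hι] at this
    exact Order.lt_succ_iff.1 this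
  have h1 : ∀ β : (Order.succ μ).ord.ToType,
      SmallCof μ (Subtype.val '' (j ⁻¹' Iic β)) := fun β =>
    ih _ (mk_image_le.trans ((mk_preimage_of_injective _ _ j.injective).trans (hI β)))
  choose 𝒞 h𝒞1 h𝒞2 h𝒞3 using h1
  refine ⟨⋃ β, 𝒞 β, mk_iUnion_le' hμ' _ hι.le fun β => (h𝒞1 β).trans (Order.le_succ μ),
    fun C hC => ?_, fun D hDS hD => ?_⟩
  · obtain ⟨β, hβ⟩ := mem_iUnion.1 hC
    exact h𝒞2 β C hβ
  · have hD' : (j '' (Subtype.val ⁻¹' D)).Countable :=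
      (hD.preimage Subtype.val_injective).image _
    have hb : ∃ β, ∀ d ∈ j '' (Subtype.val ⁻¹' D), d ≤ β := by
      by_contra hcon
      push Not at hcon
      have h3 : (⋃ d : j '' (Subtype.val ⁻¹' D), Iic d.1) = Set.univ := by
        refine eq_univ_of_forall fun β => ?_
        obtain ⟨d, hd, hlt⟩ := hcon β
        exact mem_iUnion.2 ⟨⟨d, hd⟩, hlt.le⟩
      have h4 : #(⋃ d : j '' (Subtype.val ⁻¹' D), Iic d.1) ≤ μ :=
        mk_iUnion_le' hμ _ ((le_aleph0_iff_set_countable.2 hD').trans hμ) fun d => hI _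
      rw [h3, mk_univ, hι] at h4
      exact absurd h4 (not_le.2 (Order.lt_succ μ))
    obtain ⟨β, hβ⟩ := hb
    obtain ⟨C, hC, hDC⟩ := h𝒞3 β D (fun d hd =>
      ⟨⟨d, hDS hd⟩, hβ _ (mem_image_of_mem _ hd), rfl⟩) hD
    exact ⟨C, mem_iUnion.2 ⟨β, hC⟩, hDC⟩

lemma smallCof_aleph (n : ℕ) {α : Type} (S : Set α) (hS : #S ≤ ℵ_ n) : SmallCof (ℵ_ n) S := by
  induction n generalizing S with
  | zero =>
    simp only [Nat.cast_zero, aleph_zero] at hS ⊢
    exact ⟨{S}, by simp, by simpa using le_aleph0_iff_set_countable.1 hS,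
      fun D hD _ => ⟨S, rfl, hD⟩⟩
  | succ n ih =>
    have h : ℵ_ ((n + 1 : ℕ) : Ordinal.{0}) = Order.succ (ℵ_ (n : Ordinal.{0})) := by
      rw [succ_aleph]; simp
    rw [h] at hS ⊢
    exact smallCof_succ (aleph0_le_aleph _) ih S hS

theorem main :
    (∀ κ : Cardinal.{0}, ℵ₀ < κ → κ < 𝔠 → cofCountable κ = κ → WeakBA κ → κ < boundingNumber) ∧
    (∀ n : ℕ, 1 ≤ n → ℵ_ n < (𝔠 : Cardinal.{0}) → WeakBA (ℵ_ n) → ℵ_ n < boundingNumber) := by
  refine ⟨fun κ h1 h2 h3 h4 => main_of_smallCof h1 h2.le h4 (mk_out κ) (smallCof_of_cof h3.le),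
    fun n hn h2 h4 => main_of_smallCof ?_ h2.le h4 (mk_out _)
      (smallCof_aleph n _ (by simp))⟩
  rw [← aleph_zero, aleph_lt_aleph]
  exact_mod_cast hn

end Pool.Agent.Lib.MP_baa34e_lc
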