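import Pool.Agent.Lib.MP_baa34e_lc.Defs

namespace Pool.Agent.Lib.MP_baa34e_lc

open Cardinal Filter Set TopologicalSpace

abbrev X := ℕ → Bool

lemma exists_cyl {U : Set X} (hU : IsOpen U) {x : X} (hx : x ∈ U) :
    ∃ N : ℕ, ∀ y : X, (∀ i < N, y i = x i) → y ∈ U := by
  obtain ⟨I, u, h1, h2⟩ := isOpen_pi_iff.1 hU x hx
  refine ⟨I.sup id + 1, fun y hy => h2 fun i hi => ?_⟩
  have : i < I.sup id + 1 := Nat.lt_succ_of_le (Finset.le_sup (f := id) hi)
  rw [hy i this]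
  exact (h1 i hi).2

lemma exists_base : ∃ u : ℕ → Set X, (∀ i, IsOpen (u i)) ∧ (∀ i, (u i).Nonempty) ∧
    ∀ V : Set X, IsOpen V → ∀ p ∈ V, ∃ i, p ∈ u i ∧ u i ⊆ V := by
  obtain ⟨b, hb, hb0, hB⟩ := exists_countable_basis X
  have hne : b.Nonempty := by
    obtain ⟨v, hv, -⟩ := hB.exists_subset_of_mem_open (mem_univ (fun _ => true : X)) isOpen_univ
    exact ⟨v, hv⟩
  obtain ⟨u, hu⟩ := hb.exists_eq_range hne
  have hmem : ∀ i, u i ∈ b := fun i => hu ▸ mem_range_self i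
  refine ⟨u, fun i => hB.isOpen (hmem i), fun i => ?_, fun V hV p hp => ?_⟩
  · rw [nonempty_iff_ne_empty]
    intro h
    exact hb0 (h ▸ hmem i)
  · obtain ⟨v, hv, h1, h2⟩ := hB.exists_subset_of_mem_open hp hV
    rw [hu] at hv
    obtain ⟨i, rfl⟩ := hv
    exact ⟨i, h1, h2⟩

lemma mk_X : #X = 𝔠 := by
  simp [X]

/-- many points with a prescribed start and support in a sparse set afterwards -/
lemma sparse_card (a : ℕ → ℕ) (ha : Function.Injective a) (x : X) (N : ℕ) (hN : ∀ j, N ≤ a j) :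
    𝔠 ≤ #({y : X | (∀ i < N, y i = x i) ∧ ∀ i, N ≤ i → y i = true → ∃ j, a j = i} : Set X) := by
  classical
  rw [← mk_X]
  refine Cardinal.mk_le_of_injective (f := fun z : X =>
    (⟨fun i => if i < N then x i else decide (∃ j, a j = i ∧ z j = true), ?_⟩ :
      ({y : X | (∀ i < N, y i = x i) ∧ ∀ i, N ≤ i → y i = true → ∃ j, a j = i} : Set X))) ?_
  · refine ⟨fun i hi => by simp [hi], fun i hi h => ?_⟩
    simp only [not_lt.2 hi, if_false, decide_eq_true_eq] at h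
    obtain ⟨j, hj, -⟩ := h
    exact ⟨j, hj⟩
  · intro z w h
    funext j
    have h1 := congrFun (congrArg Subtype.val h) (a j)
    simp only [not_lt.2 (hN j), if_false, ha.eq_iff, exists_eq_left, decide_eq_decide] at h1
    exact Bool.eq_iff_iff.2 h1

lemma KDense.dense {κ : Cardinal.{0}} (hκ : ℵ₀ ≤ κ) {A : Set X} (hA : KDense κ A) : Dense A := by
  rw [dense_iff_inter_open]
  intro U hU hne
  have h := hA U hU hne
  have h0 : #(A ∩ U : Set X) ≠ 0 := by
    rw [h]; exact (lt_of_lt_of_le aleph0_pos hκ).ne'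
  rw [mk_ne_zero_iff, nonempty_coe_sort] at h0
  rwa [inter_comm]

lemma KDense.card {κ : Cardinal.{0}} {A : Set X} (hA : KDense κ A) : #A = κ := by
  have := hA univ isOpen_univ univ_nonempty
  rwa [inter_univ] at this

lemma KDense.union {κ : Cardinal.{0}} (hκ : ℵ₀ ≤ κ) {A N : Set X} (hA : KDense κ A)
    (hN : #N ≤ κ) : KDense κ (A ∪ N) := by
  intro U hU hne
  apply le_antisymm
  · calc #((A ∪ N) ∩ U : Set X) ≤ #(A ∪ N : Set X) := mk_le_mk_of_subset inter_subset_left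
      _ ≤ #A + #N := mk_union_le _ _
      _ ≤ κ := add_le_of_le hκ hA.card.le hN
  · rw [← hA U hU hne]
    exact mk_le_mk_of_subset (inter_subset_inter_left _ subset_union_left)

lemma mk_iUnion_le' {α ι : Type} {κ : Cardinal.{0}} (hκ : ℵ₀ ≤ κ) (f : ι → Set α) (hι : #ι ≤ κ)
    (hf : ∀ i, #(f i) ≤ κ) : #(⋃ i, f i) ≤ κ := by
  refine (mk_iUnion_le f).trans ?_
  have : ⨆ i, #(f i) ≤ κ := ciSup_le' hf
  calc #ι * ⨆ i, #(f i) ≤ κ * κ := mul_le_mul' hι this
    _ = κ := mul_eq_self hκ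

lemma exists_kdense {κ : Cardinal.{0}} (hκ : ℵ₀ ≤ κ) (E : Set X)
    (hE : ∀ U : Set X, IsOpen U → U.Nonempty → κ ≤ #(E ∩ U : Set X)) :
    ∃ D ⊆ E, KDense κ D := by
  obtain ⟨u, huo, hune, hu⟩ := exists_base
  have h1 : ∀ i, ∃ p : Set X, p ⊆ E ∩ u i ∧ #p = κ := fun i =>
    le_mk_iff_exists_subset.1 (hE _ (huo i) (hune i))
  choose p hp hpc using h1
  refine ⟨⋃ i, p i, iUnion_subset fun i => (hp i).trans inter_subset_left, ?_⟩
  intro U hU ⟨q, hq⟩
  apply le_antisymm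
  · refine (mk_le_mk_of_subset inter_subset_left).trans ?_
    exact mk_iUnion_le' hκ p (by simpa using hκ) fun i => (hpc i).le
  · obtain ⟨i, -, hi⟩ := hu U hU q hq
    rw [← hpc i]
    exact mk_le_mk_of_subset
      (subset_inter (subset_iUnion p i) (((hp i).trans inter_subset_right).trans hi))

/-- meagre, in the form used below -/
def Mg (T : Set X) : Prop :=
  ∃ O : ℕ → Set X, (∀ m, IsOpen (O m)) ∧ (∀ m, Dense (O m)) ∧ ∀ t ∈ T, ∃ m, t ∉ O m

lemma mg_of_weakBA {κ : Cardinal.{0}} (hκ : ℵ₀ ≤ κ) (hc : κ ≤ 𝔠) (hBA : WeakBA κ)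
    (T : Set X) (hT : #T ≤ κ) : Mg T := by
  let O : ℕ → Set X := fun m => {x | ∃ n, m ≤ n ∧ x (2 * n) = true}
  have hOo : ∀ m, IsOpen (O m) := by
    intro m
    have : O m = ⋃ n, ⋃ (_ : m ≤ n), (fun x : X => x (2 * n)) ⁻¹' {true} := by
      ext x; simp [O]
    rw [this]
    exact isOpen_iUnion fun n => isOpen_iUnion fun _ =>
      (isOpen_discrete _).preimage (continuous_apply _)
  have hOd : ∀ m, Dense (O m) := by
    intro m
    rw [dense_iff_inter_open]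
    rintro U hU ⟨x, hx⟩
    obtain ⟨N, hN⟩ := exists_cyl hU hx
    refine ⟨fun i => if i < N then x i else true, hN _ fun i hi => by simp [hi],
      m + N, by omega, ?_⟩
    have : ¬ 2 * (m + N) < N := by omega
    simp [this]
  obtain ⟨D, hDE, hD⟩ := exists_kdense hκ {x : X | ∃ m, x ∉ O m} (by
    rintro U hU ⟨x, hx⟩
    obtain ⟨N, hN⟩ := exists_cyl hU hx
    refine hc.trans ((sparse_card (fun j => 2 * (j + N) + 1) (fun i j h => by
      simp only at h; omega) x N (fun j => by omega)).trans (mk_le_mk_of_subset ?_))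
    rintro y ⟨h1, h2⟩
    refine ⟨⟨N, ?_⟩, hN y h1⟩
    rintro ⟨n, hn, h⟩
    obtain ⟨j, hj⟩ := h2 (2 * n) (by omega) h
    omega)
  have hD1 := hD.union hκ hT
  obtain ⟨e⟩ := hBA _ _ hD1 hD
  have hd0 := hD.dense hκ
  have hd1 := hD1.dense hκ
  have h1 : ∀ m, ∃ O' : Set X, IsOpen O' ∧
      Subtype.val ⁻¹' O' = e ⁻¹' (Subtype.val ⁻¹' O m) := fun m =>
    isOpen_induced_iff.1 (((hOo m).preimage continuous_subtype_val).preimage e.continuous)
  choose O' hO'o hO' using h1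
  refine ⟨O', hO'o, fun m => ?_, fun t ht => ?_⟩
  · rw [dense_iff_inter_open]
    intro V hV hne
    obtain ⟨p, hpV, hp⟩ := dense_iff_inter_open.1 hd1 V hV hne
    have hW : IsOpen (e.symm ⁻¹' (Subtype.val ⁻¹' V)) :=
      (hV.preimage continuous_subtype_val).preimage e.symm.continuous
    obtain ⟨W, hWo, hW⟩ := isOpen_induced_iff.1 hW
    have hWne : W.Nonempty := by
      refine ⟨(e ⟨p, hp⟩).1, ?_⟩
      have : e ⟨p, hp⟩ ∈ Subtype.val ⁻¹' W := by
        rw [hW]; simpa using hpV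
      exact this
    obtain ⟨q, ⟨hqW, hqO⟩, hq⟩ := dense_iff_inter_open.1 hd0 (W ∩ O m) (hWo.inter (hOo m))
      (dense_iff_inter_open.1 (hOd m) W hWo hWne)
    refine ⟨(e.symm ⟨q, hq⟩).1, ?_, ?_⟩
    · have : (⟨q, hq⟩ : D) ∈ Subtype.val ⁻¹' W := hqW
      rw [hW] at this
      exact this
    · have : e.symm ⟨q, hq⟩ ∈ Subtype.val ⁻¹' O' m := by
        rw [hO']; simpa using hqO
      exact this
  · obtain ⟨m, hm⟩ := hDE (e ⟨t, Or.inr ht⟩).2
    refine ⟨m, fun h => hm ?_⟩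
    have : (⟨t, Or.inr ht⟩ : (D ∪ T : Set X)) ∈ Subtype.val ⁻¹' O' m := h
    rw [hO'] at this
    exact this

end Pool.Agent.Lib.MP_baa34e_lc
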